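import Pool.Agent.PFE.StmtsE2b
import Pool.Agent.Helper35_PFD.BFS

/-!
# Squad PFE, row BYD: base change of the frame
-/

set_option autoImplicit false

open scoped BigOperators TensorProduct

noncomputable section

namespace Pool.Agent.PFE.H41

open Pool.Agent.PFC.B1 (FS)

theorem byd : BydStmt := by
  intro R K A X J Ω Ω' _ _ _ _ _ _ _ _ _ y l χ χK D hχ
  obtain ⟨d', hb, hb', hlam, hsym⟩ := Pool.Agent.PFD.D4.H35.bfs R K A J D.d
  have hmv : ∀ (k : K) (r : R) (a : A), (algebraMap R K r * k) ⊗ₜ[R] a = k ⊗ₜ[R] (r • a) := by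
    intro k r a
    rw [← Algebra.smul_def, TensorProduct.smul_tmul]
  have hpow : ∀ n : ℕ, ((1 : K) ⊗ₜ[R] y) ^ n = (1 : K) ⊗ₜ[R] (y ^ n) := by
    intro n
    rw [Algebra.TensorProduct.tmul_pow, one_pow]
  have hsm : ∀ (k : K) (r : R) (a : A), (algebraMap R K r * k) • ((1 : K) ⊗ₜ[R] a) =
      k ⊗ₜ[R] (r • a) := by
    intro k r a
    rw [TensorProduct.smul_tmul', smul_eq_mul, mul_one, hmv]
  have hχs : ∀ x (a : A), χK x • ((1 : K) ⊗ₜ[R] a) = (1 : K) ⊗ₜ[R] (χ x • a) := by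
    intro x a
    rw [← hsm, mul_one, hχ]
  let D' : Yd K (K ⊗[R] A) X J Ω Ω' ((1 : K) ⊗ₜ[R] y) l χK :=
    { hl := D.hl
      χl := fun x => by rw [hχ, ← map_pow, D.χl, map_one]
      χu := fun x hx => by
        have h := (D.χu x hx).map (algebraMap R K)
        rwa [map_sub, map_one, ← hχ] at h
      yl := by rw [hpow, D.yl, TensorProduct.tmul_zero]
      d := d'
      ds := hsym D.ds
      deg := D.deg
      g := fun o => 1 ⊗ₜ D.g o
      g' := fun o => 1 ⊗ₜ D.g' o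
      gy := fun o => by
        rw [Algebra.TensorProduct.tmul_mul_tmul, Algebra.TensorProduct.tmul_mul_tmul, mul_one,
          hχs, D.gy]
      g'y := fun o => by
        rw [Algebra.TensorProduct.tmul_mul_tmul, Algebra.TensorProduct.tmul_mul_tmul, mul_one,
          hχs, D.g'y]
      h := fun o => 1 ⊗ₜ D.h o
      h' := fun o => 1 ⊗ₜ D.h' o
      fr := fun a => by
        induction a using TensorProduct.induction_on with
        | zero => simp
        | tmul k a =>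
          have e1 : ∀ (o : Ω) (i : ℕ),
              d'.lam (1 ⊗ₜ D.g' o * (1 ⊗ₜ y) ^ (l - 1 - i) * k ⊗ₜ a) •
                ((1 ⊗ₜ y) ^ i * (1 : K) ⊗ₜ[R] D.g o) =
              k ⊗ₜ[R] (D.d.lam (D.g' o * y ^ (l - 1 - i) * a) • (y ^ i * D.g o)) := by
            intro o i
            rw [hpow, hpow]
            simp only [Algebra.TensorProduct.tmul_mul_tmul, one_mul]
            rw [hlam, hsm]
          have e2 : ∀ (o : Ω') (i j : ℕ),
              d'.lam (1 ⊗ₜ D.h' o * ((1 ⊗ₜ y) ^ (l - 1 - i) * k ⊗ₜ a *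
                (1 ⊗ₜ y) ^ (l - 1 - j))) •
                ((1 ⊗ₜ y) ^ i * (1 : K) ⊗ₜ[R] D.h o * (1 ⊗ₜ y) ^ j) =
              k ⊗ₜ[R] (D.d.lam (D.h' o * (y ^ (l - 1 - i) * a * y ^ (l - 1 - j))) •
                (y ^ i * D.h o * y ^ j)) := by
            intro o i j
            rw [hpow, hpow, hpow, hpow]
            simp only [Algebra.TensorProduct.tmul_mul_tmul, one_mul, mul_one]
            rw [hlam, hsm]
          simp only [e1, e2]
          simp only [← TensorProduct.tmul_sum]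
          rw [← TensorProduct.tmul_add, D.fr a]
        | add a b ha hb =>
          simp only [mul_add, add_mul, map_add, add_smul, Finset.sum_add_distrib]
          conv_rhs => rw [← ha, ← hb]
          abel }
  refine ⟨D', ?_⟩
  have h1 : ∀ r, D'.e r = (1 : K) ⊗ₜ[R] D.e r := by
    rintro (o | p)
    · rfl
    · show ((1 : K) ⊗ₜ[R] y) ^ (p.2 : ℕ) * (1 : K) ⊗ₜ[R] D.h p.1 = (1 : K) ⊗ₜ[R] (y ^ (p.2 : ℕ) * D.h p.1)
      rw [hpow, Algebra.TensorProduct.tmul_mul_tmul, one_mul]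
  have h2 : ∀ r, D'.e' r = (1 : K) ⊗ₜ[R] D.e' r := by
    rintro (o | p)
    · rfl
    · show (1 : K) ⊗ₜ[R] D.h' p.1 * ((1 : K) ⊗ₜ[R] y) ^ (l - 1 - (p.2 : ℕ)) =
        (1 : K) ⊗ₜ[R] (D.h' p.1 * y ^ (l - 1 - (p.2 : ℕ)))
      rw [hpow, Algebra.TensorProduct.tmul_mul_tmul, one_mul]
  rw [Yd.RT, Yd.RT, TensorProduct.tmul_sum]
  refine Finset.sum_congr rfl fun r _ => ?_
  rw [h1, h2, mul_one, mul_one, Algebra.TensorProduct.tmul_mul_tmul, one_mul]

end Pool.Agent.PFE.H41
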