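import Pool.Agent.PFE.StmtsE1
import Pool.Agent.Helper25_PFC.CNV

set_option autoImplicit false

/-!
# Squad PFE, row KCR: `rt s - s` is a trace from `1` to `B`
-/

open scoped BigOperators

noncomputable section

namespace Pool.Agent.PFE.H41

open Pool.Agent.PFC.B1 (BiM FS Sep Split)
open Pool.Agent.PFD.D2
open Pool.Agent.PFD.D2b
open Pool.Agent.PFD.D4

/-- ROW KCR. -/
theorem kcr : KcrStmt := by
  have hCAS : Pool.Agent.PFC.B1.CasStmt := Pool.Agent.PFC.B1.H25CNV.cas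
  intro K B A I J N _ _ _ _ _ _ _ _ D s hs
  -- the operator `al`
  let al : A →ₗ[K] A := ∑ i, (LinearMap.mulLeft K (D.sp.j (D.c.b i))) ∘ₗ D.sp.a ∘ₗ
    (LinearMap.mulLeft K (D.sp.j (D.c.b' i)))
  have hal : ∀ y, al y = ∑ i, D.sp.j (D.c.b i) * D.sp.a (D.sp.j (D.c.b' i) * y) := by
    intro y
    simp only [al, LinearMap.sum_apply, LinearMap.comp_apply, LinearMap.mulLeft_apply]
  -- (1)
  have h1 : ∀ x, x - D.sp.j (D.sp.pr x) =
      ∑ k, al (D.d.b k) * D.sp.j (D.sp.pr (D.d.b' k * x)) := by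
    intro x
    rw [← D.sp.a_id x, Finset.sum_comm]
    have e1 : ∀ l, ∑ i, D.sp.j (D.c.b i) * D.sp.a (D.sp.j (D.c.b' i) * x * D.sp.j (D.c.b l)) *
        D.sp.j (D.c.b' l) = ∑ k, al (D.d.b k) *
          D.sp.j (D.c.lam (D.sp.pr (D.d.b' k * x) * D.c.b l) • D.c.b' l) := by
      intro l
      rw [← Finset.sum_mul]
      have e2 : ∑ i, D.sp.j (D.c.b i) * D.sp.a (D.sp.j (D.c.b' i) * x * D.sp.j (D.c.b l)) =
          al (x * D.sp.j (D.c.b l)) := by
        rw [hal]
        exact Finset.sum_congr rfl fun i _ => by rw [mul_assoc (D.sp.j (D.c.b' i))]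
      rw [e2]
      conv_lhs => rw [← D.d.h1 (x * D.sp.j (D.c.b l))]
      rw [map_sum, Finset.sum_mul]
      refine Finset.sum_congr rfl fun k _ => ?_
      rw [map_smul, map_smul, D.ort, ← mul_assoc, D.sp.pr_r, smul_mul_assoc, mul_smul_comm]
    rw [Finset.sum_congr rfl fun l _ => e1 l, Finset.sum_comm]
    refine Finset.sum_congr rfl fun k _ => ?_
    rw [← Finset.mul_sum, ← map_sum, D.c.h2]
  -- (2)
  have h2 : D.s.rt s = s + ∑ k, al (D.d.b k) * s * D.d.b' k := by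
    unfold Pool.Agent.PFD.RF.rt
    have e3 : ∀ n, D.s.x n * s * D.s.y n = s * (D.sp.j (D.sp.pr (1 * D.s.x n)) * D.s.y n) +
        ∑ k, al (D.d.b k) * s * (D.sp.j (D.sp.pr (D.d.b' k * D.s.x n)) * D.s.y n) := by
      intro n
      have e4 : D.s.x n = D.sp.j (D.sp.pr (D.s.x n)) +
          ∑ k, al (D.d.b k) * D.sp.j (D.sp.pr (D.d.b' k * D.s.x n)) := by
        rw [← h1]; abel
      conv_lhs => rw [e4]
      rw [add_mul, add_mul, hs, one_mul, mul_assoc s, Finset.sum_mul, Finset.sum_mul]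
      congr 1
      refine Finset.sum_congr rfl fun k _ => ?_
      rw [mul_assoc (al (D.d.b k)), hs]
      simp only [mul_assoc]
    rw [Finset.sum_congr rfl fun n _ => e3 n, Finset.sum_add_distrib, ← Finset.mul_sum, D.s.e2,
      mul_one, Finset.sum_comm]
    congr 1
    refine Finset.sum_congr rfl fun k _ => ?_
    rw [← Finset.mul_sum, D.s.e2]
  -- (3)
  refine ⟨∑ k, D.sp.a (D.d.b k) * s * D.d.b' k, ?_⟩
  rw [h2]
  congr 1
  unfold KM.TB
  let β : A →ₗ[K] A →ₗ[K] A := LinearMap.mk₂ K (fun u v => D.sp.a u * s * v)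
    (fun u u' v => by rw [map_add, add_mul, add_mul])
    (fun r u v => by rw [map_smul, smul_mul_assoc, smul_mul_assoc])
    (fun u v v' => by rw [mul_add])
    (fun r u v => by rw [mul_smul_comm])
  have hβ : ∀ u v, β u v = D.sp.a u * s * v := fun u v => rfl
  have h3 : ∀ x, ∑ k, D.sp.a (x * D.d.b k) * s * D.d.b' k =
      ∑ k, D.sp.a (D.d.b k) * s * (D.d.b' k * x) := by
    intro x
    exact hCAS K A J A D.d β x
  have e5 : ∀ k, al (D.d.b k) * s * D.d.b' k =
      ∑ i, D.sp.j (D.c.b i) * (D.sp.a (D.sp.j (D.c.b' i) * D.d.b k) * s * D.d.b' k) := by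
    intro k
    rw [hal, Finset.sum_mul, Finset.sum_mul]
    exact Finset.sum_congr rfl fun i _ => by simp only [mul_assoc]
  rw [Finset.sum_congr rfl fun k _ => e5 k, Finset.sum_comm]
  refine Finset.sum_congr rfl fun i _ => ?_
  rw [← Finset.mul_sum, h3, mul_assoc (D.sp.j (D.c.b i)), Finset.sum_mul]
  simp only [mul_assoc]

end Pool.Agent.PFE.H41
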