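import Pool.Agent.PFE.StmtsE2
import Pool.Agent.Helper91_PFD.RTC

/-!
# Squad PFE, row YGR: the group `W` in the frame
-/

set_option autoImplicit false

open scoped BigOperators TensorProduct

noncomputable section

namespace Pool.Agent.PFE.H41

open MulOpposite
open Pool.Agent.PFC.B1 (FS BiM)
open Pool.Agent.PFD.D2b (wrp)

/-- the form of a Frobenius system is nondegenerate -/
theorem ndeg {R A J : Type} [CommRing R] [Ring A] [Algebra R A] [Fintype J] (d : FS R A J)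
    (x x' : A) (h : ∀ a, d.lam (x * a) = d.lam (x' * a)) : x = x' := by
  rw [← d.h2 x, ← d.h2 x']
  exact Finset.sum_congr rfl fun i _ => by rw [h]

theorem AB_lm {R Γ A : Type} [CommRing R] [Ring Γ] [Algebra R Γ] [Ring A] [Algebra R A]
    (j : Γ →ₐ[R] A) (γ : Γ) (a : A) : (AB j).lm γ a = j γ * a := rfl

theorem AB_rm {R Γ A : Type} [CommRing R] [Ring Γ] [Algebra R Γ] [Ring A] [Algebra R A]
    (j : Γ →ₐ[R] A) (γ : Γ) (a : A) : (AB j).rm (op γ) a = a * j γ := rfl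

theorem wrp_AB {R Γ W A : Type} [CommRing R] [CommRing Γ] [Algebra R Γ] [Ring A] [Algebra R A]
    [CommGroup W] (om : W →* Γ) (j : Γ →ₐ[R] A) (w : W × W) (a : A) :
    wrp om (AB j) w a = j (om w.1) * a * j (om w.2⁻¹) := by
  show (AB j).lm (om w.1) ((AB j).rm (op (om w.2⁻¹)) a) = _
  rw [AB_rm, AB_lm, mul_assoc]

theorem ygr (hrtw : RtwStmt) : YgrStmt := by
  intro R F Γ Γ0 W A A1 X N J Ω Ω' _ _ c _ _ _ _ _ _ _ _ _ _ _ _ _ _ _ _ _ l G f χ j0 pr0 lz D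
    hlam hdeg hg hh hg' hh'
  have hin1 : ∀ w : W, lz.j (G.om w) * lz.j (G.om w⁻¹) = 1 := by
    intro w
    rw [← map_mul, ← map_mul, mul_inv_cancel, map_one, map_one]
  have key : ∀ (w : W × W) (a : A1),
      wrp G.om (AB lz.j) w (lz.j (G.om w.1⁻¹) * a * lz.j (G.om w.2)) = a := by
    intro w a
    rw [wrp_AB]
    have h1 : lz.j (G.om w.1) * (lz.j (G.om w.1⁻¹) * a * lz.j (G.om w.2)) * lz.j (G.om w.2⁻¹) =
        (lz.j (G.om w.1) * lz.j (G.om w.1⁻¹)) * a * (lz.j (G.om w.2) * lz.j (G.om w.2⁻¹)) := by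
      noncomm_ring
    rw [h1, hin1, hin1, one_mul, mul_one]
  refine ⟨⟨(lz.j : Γ →* A1).comp G.om, ?_, ?_, lz.fr.fo, lz.fr.fo', ?_, ?_, ?_, ?_,
    lz.rf.rt (lz.j lz.u'), ?_, lz.unu, ?_⟩, fun w => rfl⟩
  · intro w
    show lz.j G.y * lz.j (G.om w) = lz.j (G.om w) * lz.j G.y
    rw [← map_mul, ← map_mul, mul_comm]
  · intro w o
    rw [hdeg, lz.fr.dg]
  · intro w o
    rw [hg, lz.fr.gw, wrp_AB]
    rfl
  · intro w o
    refine ndeg D.d _ _ fun a => ?_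
    rw [hg']
    conv_lhs => rw [← key w a]
    rw [lz.fr.cw, ← hg']
    show D.d.lam (D.g' o * (lz.j (G.om w.1⁻¹) * a * lz.j (G.om w.2))) =
      D.d.lam (lz.j (G.om w.2) * D.g' o * lz.j (G.om w.1⁻¹) * a)
    rw [← mul_assoc, D.ds]
    congr 1
    noncomm_ring
  · intro w o
    rw [hh, lz.fr.hw, wrp_AB]
    rfl
  · intro w o
    refine ndeg D.d _ _ fun a => ?_
    rw [hh']
    conv_lhs => rw [← key w a]
    rw [lz.fr.dw, ← hh']
    show D.d.lam (D.h' o * (lz.j (G.om w.1⁻¹) * a * lz.j (G.om w.2))) =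
      D.d.lam (lz.j (G.om w.2) * D.h' o * lz.j (G.om w.1⁻¹) * a)
    rw [← mul_assoc, D.ds]
    congr 1
    noncomm_ring
  · intro a
    have h1 := (Pool.Agent.PFD.D4.H91.rtc R Γ A1 N lz.j lz.pr lz.rf).1 (lz.j lz.u')
      (fun γ => by rw [← map_mul, ← map_mul, mul_comm]) a
    exact h1.symm
  · exact hrtw R F Γ Γ0 W A A1 X N J Ω Ω' Ω Ω' c l G f χ j0 pr0 lz D hlam

end Pool.Agent.PFE.H41
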