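import Pool.Agent.PFE.StmtsE2b
import Pool.Agent.Helper48_PFD.ZPN
import Pool.Agent.Helper20_PFD.IDM
import Pool.Agent.Helper41_PFD.TFS

/-!
# Squad PFE, row ZPY: traces from `1` are nilpotent
-/

set_option autoImplicit false

open scoped BigOperators TensorProduct

noncomputable section

namespace Pool.Agent.PFE.H41

open Pool.Agent.PFC.B1 (FS)
open Pool.Agent.PFD.D4.H48

/-- the Casimir element commutes with everything -/
theorem casc {K A J : Type} [Field K] [Ring A] [Algebra K A] [Fintype J] (d : FS K A J)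
    (a z : A) : z * (∑ p, d.b p * a * d.b' p) = (∑ p, d.b p * a * d.b' p) * z := by
  have h1 : ∀ p, z * (d.b p * a * d.b' p) =
      ∑ q, d.lam (d.b' q * (z * d.b p)) • (d.b q * a * d.b' p) := by
    intro p
    have h := d.h1 (z * d.b p)
    rw [← mul_assoc, ← mul_assoc]
    conv_lhs => rw [← h]
    rw [Finset.sum_mul, Finset.sum_mul]
    refine Finset.sum_congr rfl fun q _ => ?_
    rw [smul_mul_assoc, smul_mul_assoc]
  have h2 : ∀ q, d.b q * a * d.b' q * z =
      ∑ p, d.lam (d.b' q * (z * d.b p)) • (d.b q * a * d.b' p) := by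
    intro q
    have h := d.h2 (d.b' q * z)
    rw [mul_assoc (d.b q * a)]
    conv_lhs => rw [← h]
    rw [Finset.mul_sum]
    refine Finset.sum_congr rfl fun p _ => ?_
    rw [mul_smul_comm, mul_assoc (d.b' q)]
  rw [Finset.mul_sum, Finset.sum_mul, Finset.sum_congr rfl fun p _ => h1 p,
    Finset.sum_congr rfl fun q _ => h2 q, Finset.sum_comm]

theorem zpy : ZpyStmt := by
  intro K A J _ _ _ _ _ _ _ d y0 ds hy0 hu hlam a
  by_contra hn
  obtain ⟨TA, hTA⟩ : ∃ TA : A → A, ∀ a, TA a = ∑ p, d.b p * a * d.b' p := ⟨_, fun _ => rfl⟩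
  rw [← hTA] at hn
  have hT5 : ∀ a z, z * TA a = TA a * z := by
    intro a z
    rw [hTA]
    exact casc d a z
  have hT4 : ∀ a z, (∀ b, b * z = z * b) → TA a * z = TA (z * a) := by
    intro a z hz
    rw [hTA, hTA, Finset.sum_mul]
    refine Finset.sum_congr rfl fun p _ => ?_
    rw [mul_assoc, hz, ← mul_assoc, mul_assoc (d.b p), hz, ← mul_assoc]
  have hxc : ∀ a, TA a ∈ Subalgebra.center K A := fun a =>
    Subalgebra.mem_center_iff.2 fun z => hT5 a z
  let x0 : Subalgebra.center K A := ⟨TA a, hxc a⟩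
  have hn0 : ¬ IsNilpotent x0 := by
    rintro ⟨m, hm⟩
    exact hn ⟨m, by simpa [x0] using congrArg Subtype.val hm⟩
  obtain ⟨e, y, hee, he0, hexy, hek⟩ :=
    Pool.Agent.PFD.D4.H20.idm K (Subalgebra.center K A) x0 hn0
  have hcen : ∀ z : Subalgebra.center K A, ∀ b : A, b * (z : A) = (z : A) * b := fun z =>
    Subalgebra.mem_center_iff.1 z.2
  have hee' : (e : A) * (e : A) = e := by
    have := congrArg Subtype.val hee
    simpa using this
  have he0' : (e : A) ≠ 0 := fun h => he0 (Subtype.ext h)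
  have hTb : (e : A) = TA ((y : A) * a) := by
    rw [← hT4 a y fun b => hcen y b]
    have := congrArg Subtype.val hexy
    rw [this]
    rfl
  have h1 : ∀ ν : A, (∀ b, b * ν = ν * b) → IsNilpotent ν → ν * (e : A) = ν → ν = 0 := by
    intro ν hc hnil hνe
    refine fs_zero d ν fun s => ?_
    have e1 : d.lam (ν * s) = LinearMap.trace K A (sand (K := K) (s * ν) ((y : A) * a)) := by
      rw [Pool.Agent.PFD.D4.H41.tfs K A J d]
      conv_lhs => rw [← hνe, hTb]
      rw [hTA, Finset.mul_sum, Finset.sum_mul, map_sum]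
      refine Finset.sum_congr rfl fun p _ => ?_
      rw [sand_apply]
      have e2 : ν * (d.b p * ((y : A) * a) * d.b' p) * s =
          (ν * d.b p * ((y : A) * a)) * (d.b' p * s) := by noncomm_ring
      rw [e2, ds]
      congr 1
      noncomm_ring
    rw [e1]
    obtain ⟨m, hm⟩ := hnil
    have hnT : IsNilpotent (sand (K := K) (s * ν) ((y : A) * a)) := by
      refine ⟨m, ?_⟩
      apply LinearMap.ext
      intro t
      rw [sand_pow, (show Commute s ν from hc s).mul_pow, hm, mul_zero, zero_mul, zero_mul]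
      rfl
    exact (LinearMap.isNilpotent_trace_of_isNilpotent hnT).eq_zero
  have h2 : ∀ z : A, (∀ b, b * z = z * b) → ∃ k : K, (e : A) * z = k • (e : A) := by
    intro z hz
    obtain ⟨k, hk⟩ := hek ⟨z, Subalgebra.mem_center_iff.2 hz⟩
    refine ⟨k, ?_⟩
    have hn' : IsNilpotent ((e : A) * z - k • (e : A)) := by
      obtain ⟨m, hm⟩ := hk
      refine ⟨m, ?_⟩
      have h5 := congrArg Subtype.val hm
      rw [SubmonoidClass.coe_pow] at h5
      exact h5
    have := h1 ((e : A) * z - k • (e : A)) ?_ hn' ?_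
    · exact sub_eq_zero.1 this
    · intro b
      rw [mul_sub, sub_mul, mul_smul_comm, smul_mul_assoc, hcen e b, ← mul_assoc, hcen e b,
        mul_assoc, mul_assoc, hz]
    · rw [sub_mul, smul_mul_assoc, hee', mul_assoc, ← hz, ← mul_assoc, hee']
  -- the trace of left multiplication by `e`
  have h3 : d.lam (e : A) ≠ 0 := by
    intro h0
    obtain ⟨k, hk⟩ := h2 (TA 1) fun b => hT5 1 b
    have etr : LinearMap.trace K A (LinearMap.mulLeft K (e : A)) = 0 := by
      rw [Pool.Agent.PFD.D4.H41.tfs K A J d]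
      have : ∀ p, d.lam (d.b' p * (LinearMap.mulLeft K (e : A)) (d.b p)) =
          d.lam ((e : A) * (d.b p * 1 * d.b' p)) := by
        intro p
        rw [LinearMap.mulLeft_apply, ds, mul_one, mul_assoc]
      rw [Finset.sum_congr rfl fun p _ => this p, ← map_sum, ← Finset.mul_sum, ← hTA, hk,
        map_smul, h0, smul_zero]
    have hp : LinearMap.IsProj (LinearMap.range (LinearMap.mulLeft K (e : A)))
        (LinearMap.mulLeft K (e : A)) := by
      refine ⟨fun x => LinearMap.mem_range_self _ _, ?_⟩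
      rintro _ ⟨x, rfl⟩
      rw [LinearMap.mulLeft_apply, LinearMap.mulLeft_apply, ← mul_assoc, hee']
    have htr := hp.trace
    rw [etr] at htr
    have hfr : Module.finrank K (LinearMap.range (LinearMap.mulLeft K (e : A))) = 0 := by
      exact_mod_cast htr.symm
    rw [Submodule.finrank_eq_zero] at hfr
    apply he0'
    have : (LinearMap.mulLeft K (e : A)) 1 ∈ LinearMap.range (LinearMap.mulLeft K (e : A)) :=
      LinearMap.mem_range_self _ _
    rw [hfr, Submodule.mem_bot, LinearMap.mulLeft_apply, mul_one] at this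
    exact this
  obtain ⟨k, hk⟩ := h2 y0 fun b => (hy0 b).symm
  have hk0 : k ≠ 0 := by
    rintro rfl
    rw [zero_smul] at hk
    obtain ⟨i, hi⟩ := hu
    apply he0'
    have := congrArg (fun t => t * (↑i⁻¹ : A)) hk
    simpa [← hi, mul_assoc] using this
  have h4 := hlam (e : A) hee'
  rw [hy0, hk, map_smul, smul_eq_mul] at h4
  rcases mul_eq_zero.1 h4 with h | h
  · exact hk0 h
  · exact h3 h

end Pool.Agent.PFE.H41
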