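import Pool.Agent.PFE.StmtsE2c

/-!
# Squad PFE, row OPB: the orthogonal projection to `F V` and the relative Frobenius system
-/

set_option autoImplicit false

open scoped BigOperators TensorProduct

noncomputable section

namespace Pool.Agent.PFE.H41

open Pool.Agent.PFD

section

variable {k S E : Type} [CommRing k] [CommRing S] [Algebra k S] [Group E] [Fintype E]
  (D : Pool.Agent.PFD.CD k S E)

/-- the inverse of `n e` -/
def nI (e : E) : CP D := (((D.c e e⁻¹)⁻¹ : kˣ) : k) • CP.n D e⁻¹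

theorem n_nI (e : E) : CP.n D e * nI D e = 1 := CP.n_mul_inv e

theorem nI_n (e : E) : nI D e * CP.n D e = 1 := CP.inv_mul_n e

theorem iS_mul_f (s : S) (a : CP D) (e : E) : (CP.iS D s * a).f e = s * a.f e := by
  rw [CP.iS_apply, CP.sn_mul_f, inv_one, one_mul, D.one_left, map_one, Units.val_one, one_smul]
  rfl

theorem mul_iS_f1 (a : CP D) (s : S) : (a * CP.iS D s).f 1 = a.f 1 * s := by
  classical
  rw [CP.mul_f, Finset.sum_eq_single 1]
  · rw [inv_one, one_mul, D.one_left, map_one, Units.val_one, one_smul, CP.iS_apply, CP.sn_f,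
      if_pos rfl]
    rfl
  · intro h _ hh
    rw [CP.iS_apply, CP.sn_f, if_neg, map_zero, mul_zero, smul_zero]
    rw [mul_one]
    intro h1
    exact hh (inv_eq_one.1 h1)
  · intro h
    exact absurd (Finset.mem_univ _) h

/-- key identity A -/
theorem idA (γ : CP D) : ∑ e, CP.n D e * CP.iS D ((nI D e * γ).f 1) = γ := by
  conv_rhs => rw [← CP.sum_iS_n γ]
  refine Finset.sum_congr rfl fun e _ => ?_
  have h1 : (nI D e * γ).f 1 = D.act e⁻¹ (γ.f e) := by
    rw [nI, smul_mul_assoc, CP.smul_f, CP.n, CP.sn_mul_f, inv_inv, mul_one, one_mul,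
      ← CP.c_inv_symm, smul_smul, Units.inv_mul, one_smul]
  rw [h1, CP.n_mul_iS, ← AlgEquiv.mul_apply, ← map_mul, mul_inv_cancel, map_one,
    AlgEquiv.one_apply]

/-- key identity B -/
theorem idB (γ : CP D) : ∑ e, CP.iS D ((γ * CP.n D e).f 1) * nI D e = γ := by
  classical
  conv_rhs => rw [← CP.sum_iS_n γ]
  rw [← Equiv.sum_comp (Equiv.inv E) (fun e => CP.iS D (γ.f e) * CP.n D e)]
  refine Finset.sum_congr rfl fun e _ => ?_
  have h1 : (γ * CP.n D e).f 1 = (D.c e⁻¹ e : k) • γ.f e⁻¹ := by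
    rw [CP.mul_f, Finset.sum_eq_single e⁻¹]
    · rw [inv_inv, mul_one, CP.n, CP.sn_f, if_pos rfl, map_one, mul_one]
    · intro h _ hh
      rw [CP.n, CP.sn_f, if_neg, map_zero, mul_zero, smul_zero]
      rw [mul_one]
      intro h1
      exact hh (by rw [← h1, inv_inv])
    · intro h
      exact absurd (Finset.mem_univ _) h
  rw [h1, nI, map_smul, smul_mul_assoc, mul_smul_comm, smul_smul, ← CP.c_inv_symm, Units.mul_inv,
    one_smul, Equiv.inv_apply]

/-- the conjugates of `iS s` -/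
theorem conj_iS (e : E) (s : S) : CP.n D e * CP.iS D s * nI D e = CP.iS D (D.act e s) := by
  rw [CP.n_mul_iS, mul_assoc, n_nI, mul_one]

/-- the trace is central -/
theorem tr_central (s : S) (γ : CP D) :
    (∑ e, CP.iS D (D.act e s)) * γ = γ * ∑ e, CP.iS D (D.act e s) := by
  have h1 : ∀ t : S, (∑ e, CP.iS D (D.act e s)) * CP.iS D t =
      CP.iS D t * ∑ e, CP.iS D (D.act e s) := by
    intro t
    rw [← map_sum, ← map_mul, ← map_mul, mul_comm]
  have h2 : ∀ g : E, (∑ e, CP.iS D (D.act e s)) * CP.n D g =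
      CP.n D g * ∑ e, CP.iS D (D.act e s) := by
    intro g
    rw [Finset.mul_sum, Finset.sum_mul]
    have h3 : ∀ e, CP.n D g * CP.iS D (D.act e s) = CP.iS D (D.act (g * e) s) * CP.n D g := by
      intro e
      rw [CP.n_mul_iS, map_mul, AlgEquiv.mul_apply]
    rw [Finset.sum_congr rfl fun e _ => h3 e]
    exact (Equiv.sum_comp (Equiv.mulLeft g) (fun e => CP.iS D (D.act e s) * CP.n D g)).symm
  conv_lhs => rw [← CP.sum_iS_n γ]
  conv_rhs => rw [← CP.sum_iS_n γ]
  rw [Finset.mul_sum, Finset.sum_mul]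
  refine Finset.sum_congr rfl fun e _ => ?_
  rw [← mul_assoc, h1, mul_assoc, h2, mul_assoc]

end

theorem opb (hOPA : OpaStmt) (hAUG : AugStmt) : OpbStmt := by
  classical
  intro ℓ _ F V E A _ _ _ _ _ _ _ _ φ NN z T hV hE hfa
  let _ := T.fN
  -- the form on the twisted group algebra
  obtain ⟨t, ht⟩ : ∃ t : CP (D0 φ z) →ₗ[F] F, ∀ γ, t γ = T.mu (T.j γ) :=
    ⟨T.mu ∘ₗ T.j.toLinearMap, fun _ => rfl⟩
  have hsym : ∀ a b, t (a * b) = t (b * a) := by
    intro a b
    rw [ht, ht, map_mul T.j, map_mul T.j, T.mus]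
  have hnd : ∀ a, (∀ b, t (a * b) = 0) → a = 0 := by
    intro a ha
    have h1 : T.j a = 0 := by
      apply T.mun
      intro b
      rw [← T.orth, T.pr_l, ← ht, ha]
    rw [← T.pr_j a, h1, map_zero]
  obtain ⟨u1, u1', hc, huu, htu, hu⟩ := hOPA ℓ F V E φ z t hV hfa hsym hnd
  obtain ⟨v, hv⟩ := hu.exists_right_inv
  obtain ⟨u, hu'⟩ : ∃ u, u = u1.f 1 := ⟨_, rfl⟩
  rw [← hu'] at hv hu
  have hu'1 : u1' * u1 = 1 := by rw [← hc, huu]
  have hc' : ∀ a, u1' * a = a * u1' := by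
    intro a
    calc u1' * a = u1' * a * (u1 * u1') := by rw [huu, mul_one]
      _ = u1' * (a * u1) * u1' := by noncomm_ring
      _ = u1' * (u1 * a) * u1' := by rw [hc]
      _ = (u1' * u1) * a * u1' := by noncomm_ring
      _ = a * u1' := by rw [hu'1, one_mul]
  obtain ⟨pv, hpv⟩ : ∃ pv : CP (D0 φ z) →ₗ[F] MonoidAlgebra F V,
      ∀ γ, pv γ = v * (u1 * γ).f 1 := by
    refine ⟨{ toFun := fun γ => v * (u1 * γ).f 1, map_add' := ?_, map_smul' := ?_ }, fun _ => rfl⟩
    · intro a b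
      rw [mul_add, CP.add_f, mul_add]
    · intro r a
      rw [mul_smul_comm, CP.smul_f, mul_smul_comm]
      rfl
  have hupv : ∀ γ, u * pv γ = (u1 * γ).f 1 := by
    intro γ
    rw [hpv, ← mul_assoc, hv, one_mul]
  have p1 : ∀ s, pv (CP.iS (D0 φ z) s) = s := by
    intro s
    rw [hpv, mul_iS_f1, ← hu', ← mul_assoc, mul_comm v, hv, one_mul]
  have p2 : ∀ s γ, pv (CP.iS (D0 φ z) s * γ) = s * pv γ := by
    intro s γ
    rw [hpv, hpv, ← mul_assoc, hc, mul_assoc, iS_mul_f]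
    ring
  have p3 : ∀ γ s, pv (γ * CP.iS (D0 φ z) s) = pv γ * s := by
    intro γ s
    rw [hpv, hpv, ← mul_assoc, mul_iS_f1, mul_assoc]
  refine ⟨pv, T.N × E, inferInstance,
    fun p => T.x p.1 * T.j (CP.n (D0 φ z) p.2 * CP.iS (D0 φ z) u),
    fun p => T.j (u1' * nI (D0 φ z) p.2) * T.y p.1, p1, p2, p3, ?_, ?_, ?_, ?_⟩
  · intro γ
    rw [← ht, ← ht, htu, htu, mul_iS_f1, ← hu', hupv]
  · intro a
    rw [Fintype.sum_prod_type]
    conv_rhs => rw [← T.e1 a]
    refine Finset.sum_congr rfl fun k _ => ?_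
    have h1 : ∀ e : E, T.x k * T.j (CP.n (D0 φ z) e * CP.iS (D0 φ z) u) *
        T.j (CP.iS (D0 φ z) (pv (T.pr (T.j (u1' * nI (D0 φ z) e) * T.y k * a)))) =
        T.x k * T.j (CP.n (D0 φ z) e *
          CP.iS (D0 φ z) ((nI (D0 φ z) e * T.pr (T.y k * a)).f 1)) := by
      intro e
      rw [mul_assoc, ← map_mul, mul_assoc (CP.n (D0 φ z) e), ← map_mul, hupv,
        mul_assoc (T.j _) (T.y k), T.pr_l, ← mul_assoc u1, ← mul_assoc u1, huu, one_mul]
    rw [Finset.sum_congr rfl fun e _ => h1 e, ← Finset.mul_sum, ← map_sum, idA]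
  · intro a
    rw [Fintype.sum_prod_type]
    conv_rhs => rw [← T.e2 a]
    refine Finset.sum_congr rfl fun k _ => ?_
    have h1 : ∀ e : E, T.j (CP.iS (D0 φ z) (pv (T.pr (a * (T.x k *
        T.j (CP.n (D0 φ z) e * CP.iS (D0 φ z) u)))))) * (T.j (u1' * nI (D0 φ z) e) * T.y k) =
        T.j (CP.iS (D0 φ z) ((u1 * T.pr (a * T.x k) * CP.n (D0 φ z) e).f 1) *
          nI (D0 φ z) e * u1') * T.y k := by
      intro e
      rw [← mul_assoc a, T.pr_r, ← mul_assoc (T.pr _), p3, mul_comm (pv _) u, hupv,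
        ← mul_assoc (T.j _), ← map_mul, hc', ← mul_assoc (CP.iS _ _), ← mul_assoc u1]
    rw [Finset.sum_congr rfl fun e _ => h1 e, ← Finset.sum_mul, ← map_sum, ← Finset.sum_mul, idB,
      hc, mul_assoc, huu, mul_one]
  · intro w hw
    have h1 : ∀ p : T.N × E, T.x p.1 * T.j (CP.n (D0 φ z) p.2 * CP.iS (D0 φ z) u) *
        T.j (CP.iS (D0 φ z) w) * (T.j (u1' * nI (D0 φ z) p.2) * T.y p.1) =
        T.x p.1 * T.j (u1' * CP.iS (D0 φ z) ((D0 φ z).act p.2 (u * w))) * T.y p.1 := by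
      intro p
      rw [← conj_iS, map_mul (CP.iS (D0 φ z)) u w]
      have h2 : u1' * (CP.n (D0 φ z) p.2 * (CP.iS (D0 φ z) u * CP.iS (D0 φ z) w) *
          nI (D0 φ z) p.2) = CP.n (D0 φ z) p.2 * CP.iS (D0 φ z) u * CP.iS (D0 φ z) w *
          (u1' * nI (D0 φ z) p.2) := by
        rw [← mul_assoc, hc']
        simp only [mul_assoc]
      rw [h2]
      simp only [map_mul, mul_assoc]
    rw [Finset.sum_congr rfl fun p _ => h1 p, Fintype.sum_prod_type]
    have h2 : ∀ k : T.N, ∑ e : E, T.x k * T.j (u1' * CP.iS (D0 φ z) ((D0 φ z).act e (u * w))) *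
        T.y k = T.x k * T.j (u1' * ∑ e : E, CP.iS (D0 φ z) ((D0 φ z).act e (u * w))) * T.y k := by
      intro k
      rw [← Finset.sum_mul, ← Finset.mul_sum, ← map_sum, ← Finset.mul_sum]
    rw [Finset.sum_congr rfl fun k _ => h2 k]
    apply T.unt
    · intro γ
      rw [mul_assoc, tr_central, ← mul_assoc, hc', mul_assoc]
    · have hun1 : IsUnit u1' := ⟨⟨u1', u1, hu'1, huu⟩, rfl⟩
      refine hun1.mul ?_
      rw [← map_sum]
      refine IsUnit.map (CP.iS (D0 φ z)) ?_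
      rw [hAUG ℓ F V hV]
      have hs : ∑ v, (u * w).coeff v ≠ 0 := (hAUG ℓ F V hV _).1 (hu.mul hw)
      have h3 : ∀ e : E, ∑ v, ((D0 φ z).act e (u * w)).coeff v = ∑ v, (u * w).coeff v := by
        intro e
        have h4 : ∀ v, ((D0 φ z).act e (u * w)).coeff v = (u * w).coeff ((φ e).symm v) := fun v =>
          MonoidAlgebra.coeff_domCongr (φ e) (u * w) v
        rw [Finset.sum_congr rfl fun v _ => h4 v]
        exact Equiv.sum_comp (φ e).symm.toEquiv (fun v => (u * w).coeff v)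
      have h5 : ∑ v, (∑ e : E, (D0 φ z).act e (u * w)).coeff v =
          (Fintype.card E : F) * ∑ v, (u * w).coeff v := by
        have h6 : ∀ v, (∑ e : E, (D0 φ z).act e (u * w)).coeff v =
            ∑ e : E, ((D0 φ z).act e (u * w)).coeff v := by
          intro v
          rw [MonoidAlgebra.coeff_sum, Finsupp.finsetSum_apply]
        rw [Finset.sum_congr rfl fun v _ => h6 v, Finset.sum_comm,
          Finset.sum_congr rfl fun e _ => h3 e, Finset.sum_const, Finset.card_univ, nsmul_eq_mul]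
      rw [h5]
      refine mul_ne_zero ?_ hs
      intro h0
      apply hE
      rw [Nat.card_eq_fintype_card]
      exact (CharP.cast_eq_zero_iff F ℓ _).1 h0

end Pool.Agent.PFE.H41
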